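import Mathlib

set_option autoImplicit false

/-!
# MP_6b3417_co, part II.4: arithmetic
-/

namespace Pool.Agent.helper24.Vis

theorem arith (H : ℕ) (hH : 12 ≤ H) : ∃ C : ℕ, ∀ n : ℕ → ℕ, C ≤ n 0 → (∀ i ≤ H, n i ≤ n 0) →
    (∀ i, i + 2 ≤ H → n i ≤ 2 * n (i + 1) + 3) →
    (∀ i, i + 2 ≤ H → 8 ≤ n i → 4 ≤ n (i + 1) → n i + n (i + 2) ≤ 2 * n (i + 1) + 9) →
    (∀ i, 4 * i ≤ H → n 0 ≤ 2 * n i ∧ 11 ≤ n i) ∧
    (∀ m, 4 * m ≤ H → (H : ℤ) * ∑ i ∈ Finset.range m,
      (2 * (n (i + 1) : ℤ) + 9 - n i - n (i + 2)) ≤ 4 * n 0) := by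
  refine ⟨100 * H ^ 2, fun n hC hle h3 h9 => ?_⟩
  obtain ⟨a, ha⟩ : ∃ a : ℕ → ℤ, ∀ i, a i = n i := ⟨fun i => n i, fun i => rfl⟩
  obtain ⟨h, hh⟩ : ∃ h : ℤ, h = H := ⟨_, rfl⟩
  have hh12 : 12 ≤ h := by rw [hh]; exact_mod_cast hH
  have hC' : 100 * h ^ 2 ≤ a 0 := by rw [ha, hh]; exact_mod_cast hC
  have ha0 : ∀ i, 0 ≤ a i := by intro i; rw [ha]; positivity
  -- step 1
  have hs1 : ∀ i, i + 2 ≤ H → 11 ≤ n i := by
    intro i
    induction i using Nat.strong_induction_on with
    | _ i ih =>
      intro hi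
      by_contra hlt
      push Not at hlt
      rcases Nat.eq_zero_or_pos i with rfl | hi0
      · have : (n 0 : ℤ) < 11 := by exact_mod_cast hlt
        rw [← ha] at this
        nlinarith
      · have key : ∀ t : ℕ, t + 1 ≤ i → a (i - 1 - t) - a (i - t) ≤ 23 + 9 * t ∧
            a (i - 1 - t) ≤ 10 + (t + 1) * (23 + 9 * t) := by
          intro t
          induction t with
          | zero =>
            intro _
            have h1 := h3 (i - 1) (by omega)
            rw [Nat.sub_add_cancel hi0] at h1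
            have h2 : a (i - 1) ≤ 2 * a i + 3 := by rw [ha, ha]; exact_mod_cast h1
            have h4 : a i ≤ 10 := by rw [ha]; exact_mod_cast (by omega : n i ≤ 10)
            have h5 := ha0 i
            simp only [Nat.sub_zero, Nat.cast_zero]
            constructor <;> linarith
          | succ t iht =>
            intro ht
            obtain ⟨g1, g2⟩ := iht (by omega)
            have g3 := ih (i - 1 - (t + 1)) (by omega) (by omega)
            have g4 := ih (i - 1 - t) (by omega) (by omega)
            have e1 : i - 1 - (t + 1) + 1 = i - 1 - t := by omega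
            have e2 : i - 1 - (t + 1) + 2 = i - t := by omega
            have g5 := h9 (i - 1 - (t + 1)) (by omega) (by omega) (by rw [e1]; omega)
            rw [e1, e2] at g5
            have g6 : a (i - 1 - (t + 1)) + a (i - t) ≤ 2 * a (i - 1 - t) + 9 := by
              rw [ha, ha, ha]; exact_mod_cast g5
            have e3 : i - (t + 1) = i - 1 - t := by omega
            rw [e3]
            push_cast
            constructor
            · linarith
            · nlinarith
        obtain ⟨_, g⟩ := key (i - 1) (by omega)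
        rw [Nat.sub_self] at g
        have hi' : ((i - 1 : ℕ) : ℤ) + 1 ≤ h := by
          rw [hh]; exact_mod_cast (by omega : i - 1 + 1 ≤ H)
        have hi'' : (0 : ℤ) ≤ ((i - 1 : ℕ) : ℤ) := by positivity
        nlinarith
  -- step 2
  have hs2 : ∀ j, j + 3 ≤ H → a j + a (j + 2) ≤ 2 * a (j + 1) + 9 := by
    intro j hj
    have h1 := hs1 j (by omega)
    have h2 := hs1 (j + 1) (by omega)
    have h4 := h9 j (by omega) (by omega) (by omega)
    rw [ha, ha, ha]; exact_mod_cast h4
  -- step 3
  have hs3 : ∀ m, 4 * m ≤ H → 7 * h * (a m - a (m + 1)) ≤ 12 * a 0 + 108 * h ^ 2 := by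
    intro m hm
    have key : ∀ t : ℕ, m + t + 2 ≤ H → a m - a (m + 1) - 9 * t ≤ a (m + t) - a (m + t + 1) ∧
        a (m + t) ≤ a m - t * (a m - a (m + 1)) + 9 * t ^ 2 := by
      intro t
      induction t with
      | zero => intro _; simp
      | succ t iht =>
        intro ht
        obtain ⟨g1, g2⟩ := iht (by omega)
        have g3 := hs2 (m + t) (by omega)
        have e1 : m + (t + 1) = m + t + 1 := by ring
        have e2 : m + t + 1 + 1 = m + t + 2 := by ring
        rw [e1, e2]
        push_cast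
        constructor
        · linarith
        · nlinarith
    obtain ⟨t, ht⟩ : ∃ t, m + t + 2 = H := ⟨H - 2 - m, by omega⟩
    obtain ⟨_, g⟩ := key t (by omega)
    have g0 := ha0 (m + t)
    have gm : a m ≤ a 0 := by rw [ha, ha]; exact_mod_cast hle m (by omega)
    have ht1 : 7 * h ≤ 12 * (t : ℤ) := by
      rw [hh]; exact_mod_cast (by omega : 7 * H ≤ 12 * t)
    have ht2 : (t : ℤ) ≤ h := by rw [hh]; exact_mod_cast (by omega : t ≤ H)
    have ht0 : (0 : ℤ) ≤ t := by positivity
    have ht3 : (t : ℤ) ^ 2 ≤ h ^ 2 := by nlinarith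
    rcases le_or_gt (a m - a (m + 1)) 0 with hd | hd
    · have : 7 * h * (a m - a (m + 1)) ≤ 0 :=
        mul_nonpos_of_nonneg_of_nonpos (by linarith) hd
      nlinarith [ha0 0]
    · have : 7 * h * (a m - a (m + 1)) ≤ 12 * (t : ℤ) * (a m - a (m + 1)) :=
        mul_le_mul_of_nonneg_right ht1 hd.le
      nlinarith
  constructor
  · -- first claim
    intro i hi
    refine ⟨?_, hs1 i (by omega)⟩
    have key : ∀ t : ℕ, t ≤ i → a (i - t) ≤ a i + t * (a i - a (i + 1)) + 9 * t ^ 2 ∧
        a (i - t) - a (i - t + 1) ≤ a i - a (i + 1) + 9 * t := by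
      intro t
      induction t with
      | zero => intro _; simp
      | succ t iht =>
        intro ht
        obtain ⟨g1, g2⟩ := iht (by omega)
        have g3 := hs2 (i - (t + 1)) (by omega)
        have e1 : i - (t + 1) + 1 = i - t := by omega
        have e2 : i - (t + 1) + 2 = i - t + 1 := by omega
        rw [e1, e2] at g3
        rw [e1]
        push_cast
        constructor
        · nlinarith
        · linarith
    obtain ⟨g, _⟩ := key i le_rfl
    rw [Nat.sub_self] at g
    have g3 := hs3 i hi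
    have hi4 : 4 * (i : ℤ) ≤ h := by rw [hh]; exact_mod_cast hi
    have hi0 : (0 : ℤ) ≤ i := by positivity
    have hi2 : 16 * (i : ℤ) ^ 2 ≤ h ^ 2 := by nlinarith
    have fin : a 0 ≤ 2 * a i := by
      rcases le_or_gt (a i - a (i + 1)) 0 with hd | hd
      · have : (i : ℤ) * (a i - a (i + 1)) ≤ 0 := mul_nonpos_of_nonneg_of_nonpos hi0 hd
        nlinarith
      · have g4 : 28 * ((i : ℤ) * (a i - a (i + 1))) ≤ 7 * h * (a i - a (i + 1)) := by
          nlinarith [mul_le_mul_of_nonneg_right hi4 hd.le]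
        nlinarith
    rw [ha, ha] at fin
    exact_mod_cast fin
  · -- second claim
    intro m hm
    have hsum : ∑ i ∈ Finset.range m, (2 * (n (i + 1) : ℤ) + 9 - n i - n (i + 2))
        = 9 * m + (a 1 - a 0) - (a (m + 1) - a m) := by
      have : ∀ m : ℕ, ∑ i ∈ Finset.range m, (2 * (n (i + 1) : ℤ) + 9 - n i - n (i + 2))
          = 9 * m + (a 1 - a 0) - (a (m + 1) - a m) := by
        intro m
        induction m with
        | zero => simp
        | succ m ih =>
          rw [Finset.sum_range_succ, ih, ← ha, ← ha, ← ha]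
          push_cast
          ring
      exact this m
    rw [hsum, ← ha, ← hh]
    have g1 : a 1 ≤ a 0 := by rw [ha, ha]; exact_mod_cast hle 1 (by omega)
    have g3 := hs3 m hm
    have hm4 : 4 * (m : ℤ) ≤ h := by rw [hh]; exact_mod_cast hm
    have hm0 : (0 : ℤ) ≤ m := by positivity
    have hmh : 4 * (h * m) ≤ h ^ 2 := by nlinarith
    have e1 : h * (9 * m + (a 1 - a 0) - (a (m + 1) - a m))
        ≤ 9 * (h * m) + h * (a m - a (m + 1)) := by nlinarith
    nlinarith

end Pool.Agent.helper24.Vis
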