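import Pool.Agent.helper88.Vis.Defs

set_option autoImplicit false

/-!
# MP_6b3417_co, part II.5: the algebra lemma
-/

namespace Pool.Agent.helper24.Vis

open Pool.Agent.helper47.Vis Pool.Agent.helper88.Vis

/-- the difference of two normalised points is parallel to the point at infinity `r` -/
lemma diff_par (c : (ℝ × ℝ) × (ℝ × ℝ)) (p z r : ℝ × ℝ) (hr : sd c.1 c.2 r = 0)
    (h : ori p z r = 0) (cp : sd c.1 c.2 p ≠ 0) (cz : sd c.1 c.2 z ≠ 0) :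
    z.1 / sd c.1 c.2 z - p.1 / sd c.1 c.2 p = (1 / sd c.1 c.2 z - 1 / sd c.1 c.2 p) * r.1 ∧
    z.2 / sd c.1 c.2 z - p.2 / sd c.1 c.2 p = (1 / sd c.1 c.2 z - 1 / sd c.1 c.2 p) * r.2 := by
  obtain ⟨C, hC⟩ : ∃ C, C = sd c.1 c.2 p := ⟨_, rfl⟩
  obtain ⟨D, hD⟩ : ∃ D, D = sd c.1 c.2 z := ⟨_, rfl⟩
  rw [← hC] at cp ⊢
  rw [← hD] at cz ⊢
  obtain ⟨u1, hu1⟩ : ∃ u1, u1 = C * (z.1 - r.1) - D * (p.1 - r.1) := ⟨_, rfl⟩
  obtain ⟨u2, hu2⟩ : ∃ u2, u2 = C * (z.2 - r.2) - D * (p.2 - r.2) := ⟨_, rfl⟩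
  have hC' : C = c.2.1 * (p.2 - r.2) - c.2.2 * (p.1 - r.1) := by
    have : C - sd c.1 c.2 r = c.2.1 * (p.2 - r.2) - c.2.2 * (p.1 - r.1) := by
      rw [hC]; unfold sd; ring
    rw [hr, sub_zero] at this; exact this
  have hD' : D = c.2.1 * (z.2 - r.2) - c.2.2 * (z.1 - r.1) := by
    have : D - sd c.1 c.2 r = c.2.1 * (z.2 - r.2) - c.2.2 * (z.1 - r.1) := by
      rw [hD]; unfold sd; ring
    rw [hr, sub_zero] at this; exact this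
  have h1 : c.2.1 * u2 - c.2.2 * u1 = 0 := by
    rw [hu1, hu2]; linear_combination (-C) * hD' + D * hC'
  have h0 : (z.1 - r.1) * (p.2 - r.2) - (z.2 - r.2) * (p.1 - r.1) = 0 := by
    have : (z.1 - r.1) * (p.2 - r.2) - (z.2 - r.2) * (p.1 - r.1) = - ori p z r := by
      unfold ori; ring
    rw [this, h, neg_zero]
  have h2 : (p.1 - r.1) * u2 - (p.2 - r.2) * u1 = 0 := by
    rw [hu1, hu2]; linear_combination (-C) * h0
  have hz1 : u1 = 0 := by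
    have : C * u1 = 0 := by
      rw [hC']
      linear_combination (p.1 - r.1) * h1 - c.2.1 * h2
    exact (mul_eq_zero.mp this).resolve_left cp
  have hz2 : u2 = 0 := by
    have : C * u2 = 0 := by
      rw [hC']
      linear_combination (p.2 - r.2) * h1 - c.2.2 * h2
    exact (mul_eq_zero.mp this).resolve_left cp
  constructor
  · have e : z.1 / D - p.1 / C - (1 / D - 1 / C) * r.1 = u1 / (C * D) := by
      rw [hu1]; field_simp; ring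
    rw [hz1, zero_div] at e
    linarith
  · have e : z.2 / D - p.2 / C - (1 / D - 1 / C) * r.2 = u2 / (C * D) := by
      rw [hu2]; field_simp; ring
    rw [hz2, zero_div] at e
    linarith

/-- value of an affine function on a difference of normalised points -/
lemma sd_div (b c : (ℝ × ℝ) × (ℝ × ℝ)) (p : ℝ × ℝ) : sd b.1 b.2 p / sd c.1 c.2 p =
    lv b.1 b.2 0 * (p.1 / sd c.1 c.2 p) + lv b.1 b.2 1 * (p.2 / sd c.1 c.2 p)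
      + lv b.1 b.2 2 * (1 / sd c.1 c.2 p) := by
  rw [sd_eq_lv b.1 b.2 p]; ring

/-- the step -/
lemma step (b c : (ℝ × ℝ) × (ℝ × ℝ)) (p p' z z' r : ℝ × ℝ) (hr : sd c.1 c.2 r = 0)
    (h : ori p z r = 0) (h' : ori p' z' r = 0) (cp : sd c.1 c.2 p ≠ 0) (cp' : sd c.1 c.2 p' ≠ 0)
    (cz : sd c.1 c.2 z ≠ 0) (cz' : sd c.1 c.2 z' ≠ 0) (bz : sd b.1 b.2 z = 0)
    (bz' : sd b.1 b.2 z' = 0) (bp : sd b.1 b.2 p ≠ 0) (k : ℝ)
    (hk : sd b.1 b.2 p' / sd c.1 c.2 p' = k * (sd b.1 b.2 p / sd c.1 c.2 p)) :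
    z'.1 / sd c.1 c.2 z' - p'.1 / sd c.1 c.2 p' = k * (z.1 / sd c.1 c.2 z - p.1 / sd c.1 c.2 p) ∧
    z'.2 / sd c.1 c.2 z' - p'.2 / sd c.1 c.2 p' = k * (z.2 / sd c.1 c.2 z - p.2 / sd c.1 c.2 p) ∧
    1 / sd c.1 c.2 z' - 1 / sd c.1 c.2 p' = k * (1 / sd c.1 c.2 z - 1 / sd c.1 c.2 p) := by
  obtain ⟨e1, e2⟩ := diff_par c p z r hr h cp cz
  obtain ⟨e1', e2'⟩ := diff_par c p' z' r hr h' cp' cz'
  have f := sd_div b c p
  have f' := sd_div b c p'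
  have g := sd_div b c z
  have g' := sd_div b c z'
  rw [bz, zero_div] at g
  rw [bz', zero_div] at g'
  obtain ⟨v, hv⟩ : ∃ v, v = 1 / sd c.1 c.2 z - 1 / sd c.1 c.2 p := ⟨_, rfl⟩
  obtain ⟨v', hv'⟩ : ∃ v', v' = 1 / sd c.1 c.2 z' - 1 / sd c.1 c.2 p' := ⟨_, rfl⟩
  rw [← hv] at e1 e2 ⊢
  rw [← hv'] at e1' e2' ⊢
  have b1 : v * sd b.1 b.2 r = -(sd b.1 b.2 p / sd c.1 c.2 p) := by
    rw [f, sd_eq_lv b.1 b.2 r]
    linear_combination (-lv b.1 b.2 0) * e1 - lv b.1 b.2 1 * e2 + lv b.1 b.2 2 * hv - g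
  have b2 : v' * sd b.1 b.2 r = -(sd b.1 b.2 p' / sd c.1 c.2 p') := by
    rw [f', sd_eq_lv b.1 b.2 r]
    linear_combination (-lv b.1 b.2 0) * e1' - lv b.1 b.2 1 * e2' + lv b.1 b.2 2 * hv' - g'
  have hbr : sd b.1 b.2 r ≠ 0 := by
    intro h0
    rw [h0, mul_zero] at b1
    have : sd b.1 b.2 p / sd c.1 c.2 p ≠ 0 := div_ne_zero bp cp
    apply this
    linarith
  have hvv : v' = k * v := by
    have : (v' - k * v) * sd b.1 b.2 r = 0 := by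
      linear_combination b2 - k * b1 - hk
    have := (mul_eq_zero.mp this).resolve_right hbr
    linarith
  refine ⟨?_, ?_, hvv⟩
  · rw [e1', e1, hvv]; ring
  · rw [e2', e2, hvv]; ring

theorem CA (a b c e : (ℝ × ℝ) × (ℝ × ℝ)) (p p' x x' : ℝ × ℝ) (z : Fin 5 → ℝ × ℝ)
    (r : Fin 4 → ℝ × ℝ) (y₀ y₁ : ℝ × ℝ)
    (hp : sd a.1 a.2 p = 0) (hp' : sd a.1 a.2 p' = 0) (hz : ∀ i, sd b.1 b.2 (z i) = 0)
    (hr : ∀ i, sd c.1 c.2 (r i) = 0) (hy₀ : sd c.1 c.2 y₀ = 0) (hy₁ : sd c.1 c.2 y₁ = 0)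
    (hx : sd e.1 e.2 x = 0) (hx' : sd e.1 e.2 x' = 0)
    (h1 : ori p (z 0) (r 0) = 0) (h2 : ori p (z 1) (r 1) = 0) (h3 : ori p (z 2) (r 2) = 0)
    (h4 : ori p (z 3) (r 3) = 0) (h1' : ori p' (z 1) (r 0) = 0) (h2' : ori p' (z 2) (r 1) = 0)
    (h3' : ori p' (z 3) (r 2) = 0) (h4' : ori p' (z 4) (r 3) = 0)
    (k1 : ori x (z 0) y₀ = 0) (k2 : ori x' (z 2) y₀ = 0) (k3 : ori x (z 2) y₁ = 0)
    (k4 : ori x' (z 4) y₁ = 0)
    (cp : sd c.1 c.2 p ≠ 0) (cp' : sd c.1 c.2 p' ≠ 0) (cz : ∀ i, sd c.1 c.2 (z i) ≠ 0)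
    (cx : sd c.1 c.2 x ≠ 0) (cx' : sd c.1 c.2 x' ≠ 0) (bp : sd b.1 b.2 p ≠ 0)
    (bp' : sd b.1 b.2 p' ≠ 0) (bx : sd b.1 b.2 x ≠ 0) (bx' : sd b.1 b.2 x' ≠ 0)
    (hzz : z 0 ≠ z 2) (hb : b.2 ≠ 0) :
    det3 (lv a.1 a.2) (lv b.1 b.2) (lv e.1 e.2) = 0 := by
  obtain ⟨k, hk⟩ : ∃ k, sd b.1 b.2 p' / sd c.1 c.2 p' = k * (sd b.1 b.2 p / sd c.1 c.2 p) :=
    ⟨(sd b.1 b.2 p' / sd c.1 c.2 p') / (sd b.1 b.2 p / sd c.1 c.2 p), by
      rw [div_mul_cancel₀ _ (div_ne_zero bp cp)]⟩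
  obtain ⟨k', hk'⟩ : ∃ k', sd b.1 b.2 x' / sd c.1 c.2 x' = k' * (sd b.1 b.2 x / sd c.1 c.2 x) :=
    ⟨(sd b.1 b.2 x' / sd c.1 c.2 x') / (sd b.1 b.2 x / sd c.1 c.2 x), by
      rw [div_mul_cancel₀ _ (div_ne_zero bx cx)]⟩
  obtain ⟨s01, s02, s03⟩ := step b c p p' (z 0) (z 1) (r 0) (hr 0) h1 h1' cp cp' (cz 0) (cz 1)
    (hz 0) (hz 1) bp k hk
  obtain ⟨s11, s12, s13⟩ := step b c p p' (z 1) (z 2) (r 1) (hr 1) h2 h2' cp cp' (cz 1) (cz 2)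
    (hz 1) (hz 2) bp k hk
  obtain ⟨s21, s22, s23⟩ := step b c p p' (z 2) (z 3) (r 2) (hr 2) h3 h3' cp cp' (cz 2) (cz 3)
    (hz 2) (hz 3) bp k hk
  obtain ⟨s31, s32, s33⟩ := step b c p p' (z 3) (z 4) (r 3) (hr 3) h4 h4' cp cp' (cz 3) (cz 4)
    (hz 3) (hz 4) bp k hk
  obtain ⟨t01, t02, t03⟩ := step b c x x' (z 0) (z 2) y₀ hy₀ k1 k2 cx cx' (cz 0) (cz 2)
    (hz 0) (hz 2) bx k' hk'
  obtain ⟨t11, t12, t13⟩ := step b c x x' (z 2) (z 4) y₁ hy₁ k3 k4 cx cx' (cz 2) (cz 4)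
    (hz 2) (hz 4) bx k' hk'
  have d1 : (k ^ 2 - k') * ((z 2).1 / sd c.1 c.2 (z 2) - (z 0).1 / sd c.1 c.2 (z 0)) = 0 := by
    linear_combination (t11 - t01) - (s31 - s21) - (s21 - s11) - k * (s21 - s11) - k * (s11 - s01)
  have d2 : (k ^ 2 - k') * ((z 2).2 / sd c.1 c.2 (z 2) - (z 0).2 / sd c.1 c.2 (z 0)) = 0 := by
    linear_combination (t12 - t02) - (s32 - s22) - (s22 - s12) - k * (s22 - s12) - k * (s12 - s02)
  have d3 : (k ^ 2 - k') * (1 / sd c.1 c.2 (z 2) - 1 / sd c.1 c.2 (z 0)) = 0 := by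
    linear_combination (t13 - t03) - (s33 - s23) - (s23 - s13) - k * (s23 - s13) - k * (s13 - s03)
  have hne : ¬ ((z 2).1 / sd c.1 c.2 (z 2) = (z 0).1 / sd c.1 c.2 (z 0) ∧
      (z 2).2 / sd c.1 c.2 (z 2) = (z 0).2 / sd c.1 c.2 (z 0) ∧
      1 / sd c.1 c.2 (z 2) = 1 / sd c.1 c.2 (z 0)) := by
    rintro ⟨q1, q2, q3⟩
    apply hzz
    have q4 : sd c.1 c.2 (z 2) = sd c.1 c.2 (z 0) := by
      have := congrArg (fun y => y⁻¹) q3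
      simpa using this
    rw [q4] at q1 q2
    have q5 := (div_left_inj' (cz 0)).mp q1
    have q6 := (div_left_inj' (cz 0)).mp q2
    exact (Prod.ext q5 q6).symm
  have hkk : k' = k ^ 2 := by
    by_contra hcon
    have hc : k ^ 2 - k' ≠ 0 := fun h => hcon (by linarith)
    apply hne
    refine ⟨?_, ?_, ?_⟩
    · have := (mul_eq_zero.mp d1).resolve_left hc; linarith
    · have := (mul_eq_zero.mp d2).resolve_left hc; linarith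
    · have := (mul_eq_zero.mp d3).resolve_left hc; linarith
  by_contra hD
  obtain ⟨w1, hw1⟩ : ∃ w1, w1 = (z 2).1 / sd c.1 c.2 (z 2) - k ^ 2 * ((z 0).1 / sd c.1 c.2 (z 0)) :=
    ⟨_, rfl⟩
  obtain ⟨w2, hw2⟩ : ∃ w2, w2 = (z 2).2 / sd c.1 c.2 (z 2) - k ^ 2 * ((z 0).2 / sd c.1 c.2 (z 0)) :=
    ⟨_, rfl⟩
  obtain ⟨w3, hw3⟩ : ∃ w3, w3 = 1 / sd c.1 c.2 (z 2) - k ^ 2 * (1 / sd c.1 c.2 (z 0)) :=
    ⟨_, rfl⟩
  have Ap := sd_div a c p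
  have Ap' := sd_div a c p'
  rw [hp, zero_div] at Ap
  rw [hp', zero_div] at Ap'
  have Ex := sd_div e c x
  have Ex' := sd_div e c x'
  rw [hx, zero_div] at Ex
  rw [hx', zero_div] at Ex'
  have B0 := sd_div b c (z 0)
  have B2 := sd_div b c (z 2)
  rw [hz, zero_div] at B0
  rw [hz, zero_div] at B2
  have aw : lv a.1 a.2 0 * w1 + lv a.1 a.2 1 * w2 + lv a.1 a.2 2 * w3 = 0 := by
    rw [hw1, hw2, hw3]
    linear_combination lv a.1 a.2 0 * s11 + lv a.1 a.2 1 * s12 + lv a.1 a.2 2 * s13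
      + k * (lv a.1 a.2 0 * s01 + lv a.1 a.2 1 * s02 + lv a.1 a.2 2 * s03)
      - Ap' + k * Ap - k * Ap' + k ^ 2 * Ap
  have bw : lv b.1 b.2 0 * w1 + lv b.1 b.2 1 * w2 + lv b.1 b.2 2 * w3 = 0 := by
    rw [hw1, hw2, hw3]
    linear_combination -B2 + k ^ 2 * B0
  have ew : lv e.1 e.2 0 * w1 + lv e.1 e.2 1 * w2 + lv e.1 e.2 2 * w3 = 0 := by
    rw [hw1, hw2, hw3]
    rw [hkk] at t01 t02 t03
    linear_combination lv e.1 e.2 0 * t01 + lv e.1 e.2 1 * t02 + lv e.1 e.2 2 * t03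
      - Ex' + k ^ 2 * Ex
  obtain ⟨α, hα⟩ : ∃ α, α = lv a.1 a.2 := ⟨_, rfl⟩
  obtain ⟨β, hβ⟩ : ∃ β, β = lv b.1 b.2 := ⟨_, rfl⟩
  obtain ⟨γ, hγ⟩ : ∃ γ, γ = lv e.1 e.2 := ⟨_, rfl⟩
  rw [← hα] at aw hD
  rw [← hβ] at bw hD
  rw [← hγ] at ew hD
  have z1 : w1 = 0 := by
    have : det3 α β γ * w1 = 0 := by
      unfold det3
      linear_combination (β 1 * γ 2 - β 2 * γ 1) * aw - (α 1 * γ 2 - α 2 * γ 1) * bw
        + (α 1 * β 2 - α 2 * β 1) * ew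
    exact (mul_eq_zero.mp this).resolve_left hD
  have z2 : w2 = 0 := by
    have : det3 α β γ * w2 = 0 := by
      unfold det3
      linear_combination -(β 0 * γ 2 - β 2 * γ 0) * aw + (α 0 * γ 2 - α 2 * γ 0) * bw
        - (α 0 * β 2 - α 2 * β 0) * ew
    exact (mul_eq_zero.mp this).resolve_left hD
  have z3 : w3 = 0 := by
    have : det3 α β γ * w3 = 0 := by
      unfold det3
      linear_combination (β 0 * γ 1 - β 1 * γ 0) * aw - (α 0 * γ 1 - α 1 * γ 0) * bw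
        + (α 0 * β 1 - α 1 * β 0) * ew
    exact (mul_eq_zero.mp this).resolve_left hD
  have C0 := sd_div c c (z 0)
  have C2 := sd_div c c (z 2)
  rw [div_self (cz 0)] at C0
  rw [div_self (cz 2)] at C2
  have hk1 : k ^ 2 = 1 := by
    linear_combination (-1 : ℝ) * C2 + k ^ 2 * C0 + lv c.1 c.2 0 * (hw1 - z1)
      + lv c.1 c.2 1 * (hw2 - z2) + lv c.1 c.2 2 * (hw3 - z3)
  apply hne
  rw [hk1, one_mul] at hw1 hw2 hw3
  exact ⟨by linarith, by linarith, by linarith⟩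

end Pool.Agent.helper24.Vis
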