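import Pool.Agent.helper88.Vis.Defs

set_option autoImplicit false

/-!
# MP_6b3417_co, part I.3: the pentagon lemma
-/

namespace Pool.Agent.helper24.Vis

open Pool.Agent.helper47.Vis Pool.Agent.helper88.Vis

lemma ori_seg {a b r : ℝ × ℝ} (h : r ∈ openSegment ℝ a b) : ∃ s t : ℝ, 0 < s ∧ 0 < t ∧
    s + t = 1 ∧ r = s • a + t • b ∧ ∀ u v : ℝ × ℝ, ori u v r = s * ori u v a + t * ori u v b := by
  obtain ⟨s, t, hs, ht, hst, rfl⟩ := h
  refine ⟨s, t, hs, ht, hst, rfl, fun u v => ?_⟩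
  have hs' : s = 1 - t := by linarith
  subst hs'
  simp only [ori, Prod.fst_add, Prod.snd_add, Prod.smul_fst, Prod.smul_snd, smul_eq_mul]
  ring

lemma inner_sub {P : Finset (ℝ × ℝ)} {z : ℝ × ℝ} (h : z ∈ inner P) : z ∈ P ∧ z ∉ Bd P :=
  mem_fil.mp h

/-- a point of `P` strictly between two points of `P`, one of which is interior, is interior -/
lemma inner_of_seg {P : Finset (ℝ × ℝ)} {a b r : ℝ × ℝ} (ha : a ∈ P) (hb : b ∈ P)
    (hab : a ∈ inner P ∨ b ∈ inner P) (hr : r ∈ P) (h : r ∈ openSegment ℝ a b) : r ∈ inner P := by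
  refine mem_fil.mpr ⟨hr, fun hrB => ?_⟩
  obtain ⟨_, f, hf, hmin⟩ := mem_fil.mp hrB
  obtain ⟨s, t, hs, ht, hst, rfl⟩ := h
  have h1 := hmin a ha
  have h2 := hmin b hb
  simp only [Prod.fst_add, Prod.snd_add, Prod.smul_fst, Prod.smul_snd, smul_eq_mul] at h1 h2
  have hs' : s = 1 - t := by linarith
  subst hs'
  have h3 : f.1 * a.1 + f.2 * a.2 = f.1 * b.1 + f.2 * b.2 := by
    nlinarith
  have haB : a ∈ Bd P := by
    refine mem_fil.mpr ⟨ha, f, hf, fun r' hr' => ?_⟩
    have h4 := hmin r' hr'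
    simp only [Prod.fst_add, Prod.snd_add, Prod.smul_fst, Prod.smul_snd, smul_eq_mul] at h4
    have e : f.1 * ((1 - t) * a.1 + t * b.1) + f.2 * ((1 - t) * a.2 + t * b.2)
        = f.1 * a.1 + f.2 * a.2 := by linear_combination (-t) * h3
    rw [e] at h4
    exact h4
  have hbB : b ∈ Bd P := by
    refine mem_fil.mpr ⟨hb, f, hf, fun r' hr' => ?_⟩
    have h4 := hmin r' hr'
    simp only [Prod.fst_add, Prod.snd_add, Prod.smul_fst, Prod.smul_snd, smul_eq_mul] at h4
    have e : f.1 * ((1 - t) * a.1 + t * b.1) + f.2 * ((1 - t) * a.2 + t * b.2)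
        = f.1 * b.1 + f.2 * b.2 := by linear_combination (1 - t) * h3
    rw [e] at h4
    exact h4
  rcases hab with h4 | h4
  · exact (inner_sub h4).2 haB
  · exact (inner_sub h4).2 hbB

/-- interior points are strictly left of the edges -/
lemma ori_pos_of_inner {P : Finset (ℝ × ℝ)} {x y z : ℝ × ℝ} (h : Edge P x y) (hz : z ∈ inner P) :
    0 < ori x y z := by
  obtain ⟨hzP, hzB⟩ := inner_sub hz
  refine lt_of_le_of_ne (h.left z hzP) (fun h0 => hzB ?_)
  refine mem_fil.mpr ⟨hzP, (-(y.2 - x.2), y.1 - x.1), ?_, fun r hr => ?_⟩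
  · intro h1
    simp only [Prod.mk_eq_zero] at h1
    apply h.ne
    exact Prod.ext (by linarith [h1.2]) (by linarith [h1.1])
  · have h1 := h.left r hr
    unfold ori at h0 h1
    simp only
    linarith

theorem pentagon (P : Finset (ℝ × ℝ)) (hK : K5free (P : Set (ℝ × ℝ))) (x y p q w : ℝ × ℝ)
    (hxy : Edge P x y) (hpq : Edge (inner P) p q) (hx : ori p q x < 0) (hy : ori p q y < 0)
    (hw : w ∈ inner P) (h1 : 0 < ori p q w) (h2 : 0 < ori p x w) (h3 : 0 < ori y q w) : False := by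
  obtain ⟨w, hwm, hmin⟩ := Finset.exists_min_image
    (fil (inner P) (fun w => 0 < ori p q w ∧ 0 < ori p x w ∧ 0 < ori y q w)) (fun w => ori p q w)
    ⟨w, mem_fil.mpr ⟨hw, h1, h2, h3⟩⟩
  obtain ⟨hw, h1, h2, h3⟩ := mem_fil.mp hwm
  have hmin' : ∀ r ∈ inner P, 0 < ori p q r → ori p q r < ori p q w → 0 < ori p x r →
      0 < ori y q r → False := by
    intro r hr r1 r2 r3 r4
    exact absurd (hmin r (mem_fil.mpr ⟨hr, r1, r3, r4⟩)) (not_le.mpr r2)
  have hpI := hpq.hp
  have hqI := hpq.hq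
  have hpP := (inner_sub hpI).1
  have hqP := (inner_sub hqI).1
  have hwP := (inner_sub hw).1
  have hxP := hxy.hp
  have hyP := hxy.hq
  have o1 := ori_pos_of_inner hxy hpI
  have o2 := ori_pos_of_inner hxy hqI
  -- orientations
  have hpxq : 0 < ori p x q := by
    have : ori p x q = -ori p q x := by unfold ori; ring
    linarith
  have hyqp : 0 < ori y q p := by
    have : ori y q p = -ori p q y := by unfold ori; ring
    linarith
  have hpxy : 0 < ori p x y := by
    have : ori p x y = ori x y p := by unfold ori; ring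
    linarith
  have hyqx : 0 < ori y q x := by
    have : ori y q x = ori x y q := by unfold ori; ring
    linarith
  have hpqp : ori p q p = 0 := by unfold ori; ring
  have hpqq : ori p q q = 0 := by unfold ori; ring
  have hpxp : ori p x p = 0 := by unfold ori; ring
  have hpxx : ori p x x = 0 := by unfold ori; ring
  have hyqq : ori y q q = 0 := by unfold ori; ring
  have hyqy : ori y q y = 0 := by unfold ori; ring
  -- a point of the line `p q` inside the pentagon is between `p` and `q`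
  have hline : ∀ r ∈ inner P, ori p q r = 0 → 0 < ori p x r → 0 < ori y q r → False := by
    intro r hr r1 r2 r3
    apply hpq.empty r hr
    -- parameter
    have hne : 0 < (q.1 - p.1) ^ 2 + (q.2 - p.2) ^ 2 := by
      by_contra hcon
      apply hpq.ne
      have e1 : (q.1 - p.1) ^ 2 = 0 := by nlinarith [sq_nonneg (q.1 - p.1), sq_nonneg (q.2 - p.2)]
      have e2 : (q.2 - p.2) ^ 2 = 0 := by nlinarith [sq_nonneg (q.1 - p.1), sq_nonneg (q.2 - p.2)]
      have e3 := pow_eq_zero_iff (two_ne_zero) |>.mp e1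
      have e4 := pow_eq_zero_iff (two_ne_zero) |>.mp e2
      exact Prod.ext (by linarith) (by linarith)
    obtain ⟨t, ht⟩ : ∃ t : ℝ, t = ((q.1 - p.1) * (r.1 - p.1) + (q.2 - p.2) * (r.2 - p.2)) /
      ((q.1 - p.1) ^ 2 + (q.2 - p.2) ^ 2) := ⟨_, rfl⟩
    have hr1 : r.1 = (1 - t) * p.1 + t * q.1 := by
      have : t * ((q.1 - p.1) ^ 2 + (q.2 - p.2) ^ 2)
          = (q.1 - p.1) * (r.1 - p.1) + (q.2 - p.2) * (r.2 - p.2) := by
        rw [ht, div_mul_cancel₀ _ hne.ne']
      have h0 : (q.1 - p.1) * (r.2 - p.2) = (q.2 - p.2) * (r.1 - p.1) := by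
        unfold ori at r1; linarith
      have : ((q.1 - p.1) ^ 2 + (q.2 - p.2) ^ 2) * (r.1 - ((1 - t) * p.1 + t * q.1)) = 0 := by
        linear_combination (-(q.1 - p.1)) * this - (q.2 - p.2) * h0
      have := (mul_eq_zero.mp this).resolve_left hne.ne'
      linarith
    have hr2 : r.2 = (1 - t) * p.2 + t * q.2 := by
      have : t * ((q.1 - p.1) ^ 2 + (q.2 - p.2) ^ 2)
          = (q.1 - p.1) * (r.1 - p.1) + (q.2 - p.2) * (r.2 - p.2) := by
        rw [ht, div_mul_cancel₀ _ hne.ne']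
      have h0 : (q.1 - p.1) * (r.2 - p.2) = (q.2 - p.2) * (r.1 - p.1) := by
        unfold ori at r1; linarith
      have : ((q.1 - p.1) ^ 2 + (q.2 - p.2) ^ 2) * (r.2 - ((1 - t) * p.2 + t * q.2)) = 0 := by
        linear_combination (-(q.2 - p.2)) * this + (q.1 - p.1) * h0
      have := (mul_eq_zero.mp this).resolve_left hne.ne'
      linarith
    have e1 : ori p x r = t * ori p x q := by
      unfold ori; rw [hr1, hr2]; ring
    have e2 : ori y q r = (1 - t) * ori y q p := by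
      unfold ori; rw [hr1, hr2]; ring
    rw [e1] at r2
    rw [e2] at r3
    have t0 : 0 < t := (pos_iff_pos_of_mul_pos r2).mpr hpxq
    have t1 : 0 < 1 - t := (pos_iff_pos_of_mul_pos r3).mpr hyqp
    exact ⟨1 - t, t, t1, t0, by ring, Prod.ext (by simp [hr1]) (by simp [hr2])⟩
  -- pairs with one end on the right side and the other on the line
  have hlow : ∀ a b : ℝ × ℝ, a ∈ P → b ∈ inner P → ori p q a < 0 → ori p q b = 0 → a ≠ b →
      Sees (P : Set (ℝ × ℝ)) a b := by
    intro a b ha hb ha' hb' hne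
    refine ⟨hne, fun r hr hseg => ?_⟩
    have hrI := inner_of_seg ha (inner_sub hb).1 (Or.inr hb) hr hseg
    obtain ⟨s, t, hs, ht, _, _, h⟩ := ori_seg hseg
    have h5 := hpq.left r hrI
    rw [h p q, hb'] at h5
    nlinarith [mul_neg_of_pos_of_neg hs ha']
  have hne_of : ∀ {u v a b : ℝ × ℝ}, ori u v a ≠ ori u v b → a ≠ b := by
    intro u v a b h hab
    exact h (by rw [hab])
  refine hK.elim5 (a := x) (b := y) (c := q) (d := w) (e := p) hxP hyP hqP hwP hpP ?_ ?_ ?_ ?_ ?_ ?_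
    ?_ ?_ ?_ ?_
  · -- x y
    exact ⟨hxy.ne, fun r hr => hxy.empty r hr⟩
  · -- x q
    exact hlow x q hxP hqI hx hpqq (hne_of (u := p) (v := q) (by rw [hpqq]; exact hx.ne))
  · -- x w
    refine ⟨hne_of (u := p) (v := q) (by linarith), fun r hr hseg => ?_⟩
    have hrI := inner_of_seg hxP hwP (Or.inr hw) hr hseg
    obtain ⟨s, t, hs, ht, hst, _, h⟩ := ori_seg hseg
    have r2 : 0 < ori p x r := by rw [h, hpxx]; nlinarith [mul_pos ht h2]
    have r3 : 0 < ori y q r := by rw [h]; nlinarith [mul_pos ht h3, mul_pos hs hyqx]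
    rcases (hpq.left r hrI).eq_or_lt with h0 | h0
    · exact hline r hrI h0.symm r2 r3
    · exact hmin' r hrI h0 (by rw [h]; nlinarith [mul_neg_of_pos_of_neg hs hx]) r2 r3
  · -- x p
    exact hlow x p hxP hpI hx hpqp (hne_of (u := p) (v := q) (by rw [hpqp]; exact hx.ne))
  · -- y q
    exact hlow y q hyP hqI hy hpqq (hne_of (u := p) (v := q) (by rw [hpqq]; exact hy.ne))
  · -- y w
    refine ⟨hne_of (u := p) (v := q) (by linarith), fun r hr hseg => ?_⟩
    have hrI := inner_of_seg hyP hwP (Or.inr hw) hr hseg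
    obtain ⟨s, t, hs, ht, hst, _, h⟩ := ori_seg hseg
    have r2 : 0 < ori p x r := by rw [h]; nlinarith [mul_pos ht h2, mul_pos hs hpxy]
    have r3 : 0 < ori y q r := by rw [h, hyqy]; nlinarith [mul_pos ht h3]
    rcases (hpq.left r hrI).eq_or_lt with h0 | h0
    · exact hline r hrI h0.symm r2 r3
    · exact hmin' r hrI h0 (by rw [h]; nlinarith [mul_neg_of_pos_of_neg hs hy]) r2 r3
  · -- y p
    exact hlow y p hyP hpI hy hpqp (hne_of (u := p) (v := q) (by rw [hpqp]; exact hy.ne))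
  · -- q w
    refine ⟨hne_of (u := p) (v := q) (by rw [hpqq]; exact h1.ne), fun r hr hseg => ?_⟩
    have hrI := inner_of_seg hqP hwP (Or.inr hw) hr hseg
    obtain ⟨s, t, hs, ht, hst, _, h⟩ := ori_seg hseg
    have r2 : 0 < ori p x r := by rw [h]; nlinarith [mul_pos ht h2, mul_pos hs hpxq]
    have r3 : 0 < ori y q r := by rw [h, hyqq]; nlinarith [mul_pos ht h3]
    have r1 : 0 < ori p q r := by rw [h, hpqq]; nlinarith [mul_pos ht h1]
    exact hmin' r hrI r1 (by rw [h, hpqq]; nlinarith [mul_pos hs h1]) r2 r3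
  · -- q p
    refine Sees.symm ⟨hpq.ne, fun r hr hseg => ?_⟩
    exact hpq.empty r (inner_of_seg hpP hqP (Or.inl hpI) hr hseg) hseg
  · -- w p
    refine ⟨hne_of (u := p) (v := q) (by rw [hpqp]; exact h1.ne'), fun r hr hseg => ?_⟩
    have hrI := inner_of_seg hwP hpP (Or.inl hw) hr hseg
    obtain ⟨s, t, hs, ht, hst, _, h⟩ := ori_seg hseg
    have r2 : 0 < ori p x r := by rw [h, hpxp]; nlinarith [mul_pos hs h2]
    have r3 : 0 < ori y q r := by rw [h]; nlinarith [mul_pos hs h3, mul_pos ht hyqp]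
    have r1 : 0 < ori p q r := by rw [h, hpqp]; nlinarith [mul_pos hs h1]
    exact hmin' r hrI r1 (by rw [h, hpqp]; nlinarith [mul_pos ht h1]) r2 r3

end Pool.Agent.helper24.Vis
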