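import Pool.Agent.helper47.Vis.Rows

set_option autoImplicit false

/-!
# MP_6b3417_co, part II.8: exact rows give a projective lattice window
-/

namespace Pool.Agent.helper24.Vis

open Pool.Agent.helper47.Vis

/-! ### Sequences -/

/-- a sequence with period two and two equal consecutive values is constant -/
lemma const_of_per {γ : ℕ → ℝ} {l r m : ℕ} (hper : ∀ j, l ≤ j → j + 3 ≤ r → γ j = γ (j + 2))
    (hm : l ≤ m) (hmr : m + 2 ≤ r) (heq : γ m = γ (m + 1)) : ∀ j, l ≤ j → j + 1 ≤ r → γ j = γ l := by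
  have key : ∀ t, l + t + 1 ≤ r → γ (l + t) = γ (l + t % 2) := by
    intro t
    induction t using Nat.strong_induction_on with
    | _ t ih =>
      intro ht
      rcases Nat.lt_or_ge t 2 with h | h
      · rw [Nat.mod_eq_of_lt h]
      · obtain ⟨s, rfl⟩ : ∃ s, t = s + 2 := ⟨t - 2, by omega⟩
        have h1 := hper (l + s) (by omega) (by omega)
        have h2 := ih s (by omega) (by omega)
        have e : l + (s + 2) = l + s + 2 := by ring
        rw [e, ← h1, h2]
        congr 2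
        omega
  have h01 : γ l = γ (l + 1) := by
    obtain ⟨s, rfl⟩ : ∃ s, m = l + s := ⟨m - l, by omega⟩
    have h1 := key s (by omega)
    have h2 := key (s + 1) (by omega)
    rw [← add_assoc] at h2
    rw [h1, h2] at heq
    rcases Nat.mod_two_eq_zero_or_one s with h | h
    · have h' : (s + 1) % 2 = 1 := by omega
      rw [h, h'] at heq
      simpa using heq
    · have h' : (s + 1) % 2 = 0 := by omega
      rw [h, h'] at heq
      simpa using heq.symm
  intro j hj hjr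
  obtain ⟨s, rfl⟩ : ∃ s, j = l + s := ⟨j - l, by omega⟩
  rw [key s (by omega)]
  rcases Nat.mod_two_eq_zero_or_one s with h | h
  · rw [h, add_zero]
  · rw [h, ← h01]

/-- arithmetic progressions -/
lemma ap {F : ℕ → ℝ} {M : ℕ} (h : ∀ t, t + 2 ≤ M → F t + F (t + 2) = 2 * F (t + 1)) :
    ∀ t, t ≤ M → F t = F 0 + t * (F 1 - F 0) := by
  intro t
  induction t using Nat.strong_induction_on with
  | _ t ih =>
    intro ht
    rcases Nat.lt_or_ge t 2 with h1 | h1
    · interval_cases t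
      · simp
      · simp
    · obtain ⟨s, rfl⟩ : ∃ s, t = s + 2 := ⟨t - 2, by omega⟩
      have h2 := h s ht
      have h3 := ih s (by omega) (by omega)
      have h4 := ih (s + 1) (by omega) (by omega)
      push_cast at h4 ⊢
      linarith

lemma exists_shift (f : ℕ → ℤ) : ∃ s : ℕ → ℤ, ∀ t, s t + s (t + 2) = f t + 2 * s (t + 1) := by
  obtain ⟨p, hp0, hp⟩ : ∃ p : ℕ → ℤ × ℤ, p 0 = (0, 0) ∧
      ∀ t, p (t + 1) = ((p t).2, f t + 2 * (p t).2 - (p t).1) :=
    ⟨fun t => Nat.rec (0, 0) (fun t q => (q.2, f t + 2 * q.2 - q.1)) t, rfl, fun t => rfl⟩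
  refine ⟨fun t => (p t).1, fun t => ?_⟩
  have h1 := hp t
  have h2 : p (t + 2) = ((p (t + 1)).2, f (t + 1) + 2 * (p (t + 1)).2 - (p (t + 1)).1) := hp (t + 1)
  simp only [h2, h1]
  ring

/-- discrete convexity -/
lemma conv {D : ℕ → ℤ} {M : ℕ} (h : ∀ t, t + 2 ≤ M → 2 * D (t + 1) ≤ D t + D (t + 2))
    (h0 : D 0 ≤ 0) (hM : D M ≤ 0) : ∀ t, t ≤ M → D t ≤ 0 := by
  have h1 : ∀ t : ℕ, t + 1 ≤ M → ((t : ℤ) + 1) * D t ≤ t * D (t + 1) := by
    intro t
    induction t with
    | zero => intro _; simpa using h0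
    | succ t ih =>
      intro ht
      have h2 := ih (by omega)
      have h3 := h t (by omega)
      push_cast
      nlinarith
  have h2 : ∀ s : ℕ, ∀ t : ℕ, t ≤ s → s ≤ M → (s : ℤ) * D t ≤ t * D s := by
    intro s
    induction s with
    | zero => intro t ht _; have : t = 0 := by omega
              subst this; simp
    | succ s ih =>
      intro t ht hs
      rcases Nat.lt_or_ge t (s + 1) with h3 | h3
      · have h4 := ih t (by omega) (by omega)
        have h5 := h1 s hs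
        rcases Nat.eq_zero_or_pos s with rfl | hs0
        · have : t = 0 := by omega
          subst this
          simpa using h0
        · have h6 : (0 : ℤ) < s := by exact_mod_cast hs0
          have h7 : (0 : ℤ) ≤ t := by positivity
          have h8 : (s : ℤ) * (((s + 1 : ℕ) : ℤ) * D t) ≤ s * (t * D (s + 1)) := by
            push_cast
            nlinarith
          exact le_of_mul_le_mul_left h8 h6
      · have : t = s + 1 := by omega
        subst this
        exact le_rfl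
  intro t ht
  rcases Nat.eq_zero_or_pos M with rfl | hM0
  · have : t = 0 := by omega
    subst this; exact h0
  · have h3 := h2 M t ht le_rfl
    have h4 : (0 : ℤ) < M := by exact_mod_cast hM0
    have h5 : (0 : ℤ) ≤ t := by positivity
    by_contra hlt
    push Not at hlt
    nlinarith [mul_pos h4 hlt, mul_nonneg h5 (neg_nonneg.mpr hM)]

/-- choice of the window -/
lemma choose_line {M W : ℕ} (hM : 1 ≤ M) (hW : 10 * (M + 10) ^ 2 ≤ W) {L R : ℕ → ℤ}
    (hL : ∀ t, t + 2 ≤ M → 2 * L (t + 1) ≤ L t + L (t + 2) + 1)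
    (hR : ∀ t, t + 2 ≤ M → R t + R (t + 2) - 1 ≤ 2 * R (t + 1))
    (hLR : ∀ t, t ≤ M → L t + W ≤ R t) :
    ∃ o k : ℤ, ∀ t : ℕ, t ≤ M → L t ≤ o + k * t ∧ o + k * t + M ≤ R t := by
  have hM0 : (0 : ℤ) < M := by exact_mod_cast hM
  obtain ⟨k, hk⟩ : ∃ k : ℤ, k = (L M - L 0) / M := ⟨_, rfl⟩
  have hk1 : k * M ≤ L M - L 0 := by rw [hk]; exact Int.ediv_mul_le _ hM0.ne'
  have hk2 : L M - L 0 < k * M + M := by
    have := Int.lt_ediv_add_one_mul_self (L M - L 0) hM0
    rw [← hk] at this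
    linarith
  have hlow : ∀ t : ℕ, t ≤ M → (M : ℤ) * (2 * L t + t ^ 2)
      ≤ 2 * (M - t) * L 0 + t * (2 * L M + M ^ 2) := by
    intro t ht
    have := conv (D := fun t => (M : ℤ) * (2 * L t + t ^ 2) - (2 * (M - t) * L 0
      + t * (2 * L M + M ^ 2))) (M := M) (by
        intro t ht
        have h1 := hL t ht
        have h2 : (M : ℤ) * (2 * L (t + 1)) ≤ M * (L t + L (t + 2) + 1) :=
          mul_le_mul_of_nonneg_left h1 hM0.le
        push_cast
        nlinarith) (le_of_eq (by push_cast; ring)) (le_of_eq (by ring)) t ht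
    linarith
  have hup : ∀ t : ℕ, t ≤ M → 2 * (M - t) * R 0 + t * (2 * R M - M ^ 2)
      ≤ (M : ℤ) * (2 * R t - t ^ 2) := by
    intro t ht
    have := conv (D := fun t => (2 * (M - t) * R 0
      + t * (2 * R M - M ^ 2)) - (M : ℤ) * (2 * R t - t ^ 2)) (M := M) (by
        intro t ht
        have h1 := hR t ht
        have h2 : (M : ℤ) * (R t + R (t + 2) - 1) ≤ M * (2 * R (t + 1)) :=
          mul_le_mul_of_nonneg_left h1 hM0.le
        push_cast
        nlinarith) (le_of_eq (by push_cast; ring)) (le_of_eq (by ring)) t ht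
    linarith
  refine ⟨L 0 + M + M ^ 2, k, fun t ht => ?_⟩
  have ht' : (t : ℤ) ≤ M := by exact_mod_cast ht
  have ht0 : (0 : ℤ) ≤ t := by positivity
  have e1 : (t : ℤ) * (k * M) ≤ t * (L M - L 0) := mul_le_mul_of_nonneg_left hk1 ht0
  have e2 : (t : ℤ) * (L M - L 0) ≤ t * (k * M + M) := mul_le_mul_of_nonneg_left hk2.le ht0
  have e3 : (t : ℤ) * M ≤ M * M := mul_le_mul_of_nonneg_right ht' hM0.le
  have e4 : (t : ℤ) * M ^ 2 ≤ M * M ^ 2 := mul_le_mul_of_nonneg_right ht' (by positivity)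
  have e5 : (0 : ℤ) ≤ M * t ^ 2 := by positivity
  constructor
  · have h1 := hlow t ht
    have h2 : (M : ℤ) * L t ≤ M * (L 0 + M + M ^ 2 + k * t) := by nlinarith
    exact le_of_mul_le_mul_left h2 hM0
  · have h1 := hup t ht
    have h3 := hLR 0 (Nat.zero_le _)
    have h4 := hLR M le_rfl
    have hW' : (10 : ℤ) * (M + 10) ^ 2 ≤ W := by exact_mod_cast hW
    have h5 : ((M : ℤ) - t) * (L 0 + W) ≤ (M - t) * R 0 :=
      mul_le_mul_of_nonneg_left h3 (by linarith)
    have h6 : (t : ℤ) * (L M + W) ≤ t * R M := mul_le_mul_of_nonneg_left h4 ht0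
    have h7 : (M : ℤ) * (10 * (M + 10) ^ 2) ≤ M * W := mul_le_mul_of_nonneg_left hW' hM0.le
    have h2 : (M : ℤ) * (L 0 + M + M ^ 2 + k * t + M) ≤ M * R t := by nlinarith
    exact le_of_mul_le_mul_left h2 hM0

/-! ### Gaps -/

section gaps

variable {V : Set (ℝ × ℝ)} {J W : ℕ} {η : ℕ → ℝ} {n : ℕ → ℕ} {x : ℕ → ℕ → ℝ}
  {l r : ℕ → ℕ} {c : ℕ → ℤ}

/-- heights are increasing -/
lemma eta_lt (hR : Rows V J η n x) {i i' : ℕ} (h : i < i') (h' : i' ≤ J) : η i < η i' := by
  induction i', h using Nat.le_induction with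
  | base => exact hR.hη i (by omega)
  | succ k hk ih => exact (ih (by omega)).trans (hR.hη k (by omega))

lemma cross_mul (hR : Rows V J η n x) {i : ℕ} (hi : i + 2 ≤ J) (j k : ℕ) :
    (η (i + 2) - η i) * cross η x i j k =
      (η (i + 2) - η (i + 1)) * x i j + (η (i + 1) - η i) * x (i + 2) k := by
  have h1 : η i < η (i + 2) := eta_lt hR (by omega) hi
  unfold cross
  field_simp [(sub_pos.mpr h1).ne']

/-- the blocking relation, multiplied out -/
lemma rel_mul (hR : Rows V J η n x) (hE : Exact J η n x l r c W) {i : ℕ} (hi : i + 2 ≤ J)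
    {j k m : ℕ} (hj : l i ≤ j) (hj' : j ≤ r i) (hk : l (i + 2) ≤ k) (hk' : k ≤ r (i + 2))
    (hm : (j : ℤ) + k + c i = 2 * m + 1) :
    (η (i + 2) - η i) * x (i + 1) m =
      (η (i + 2) - η (i + 1)) * x i j + (η (i + 1) - η i) * x (i + 2) k := by
  obtain ⟨m', h1, h2, h3, h4⟩ := hE.rel i hi j k hj hj' hk hk' m hm
  have : m' = m := by exact_mod_cast h1
  subst this
  rw [h4, cross_mul hR hi]

lemma exists_m (hE : Exact J η n x l r c W) {i : ℕ} (hi : i + 2 ≤ J)
    {j k : ℕ} (hj : l i ≤ j) (hj' : j ≤ r i) (hk : l (i + 2) ≤ k) (hk' : k ≤ r (i + 2))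
    (hm : ((j : ℤ) + k + c i) % 2 = 1) :
    ∃ m : ℕ, (j : ℤ) + k + c i = 2 * m + 1 ∧ l (i + 1) ≤ m ∧ m ≤ r (i + 1) := by
  obtain ⟨m', h1, h2, h3, h4⟩ := hE.rel i hi j k hj hj' hk hk' (((j : ℤ) + k + c i) / 2) (by omega)
  exact ⟨m', by rw [h1]; omega, h2, h3⟩

lemma gap_eq (hR : Rows V J η n x) (hE : Exact J η n x l r c W) {i : ℕ} (hi : i + 2 ≤ J)
    {j k : ℕ} (hj : l i ≤ j) (hj' : j + 1 ≤ r i) (hk : l (i + 2) ≤ k) (hk' : k + 1 ≤ r (i + 2))
    (hm : ((j : ℤ) + k + c i) % 2 = 0) :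
    (η (i + 2) - η (i + 1)) * (x i (j + 1) - x i j) =
      (η (i + 1) - η i) * (x (i + 2) (k + 1) - x (i + 2) k) := by
  obtain ⟨m, h1, _, _⟩ := exists_m hE hi (j := j) (k := k + 1) hj (by omega) (by omega) hk'
    (by push_cast; omega)
  have h2 := rel_mul hR hE hi (j := j) (k := k + 1) (m := m) hj (by omega) (by omega) hk' h1
  have h3 := rel_mul hR hE hi (j := j + 1) (k := k) (m := m) (by omega) hj' hk (by omega)
    (by push_cast at h1 ⊢; linarith)
  linarith

lemma per_low (hR : Rows V J η n x) (hE : Exact J η n x l r c W) (hW : 10 ≤ W) {i : ℕ}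
    (hi : i + 2 ≤ J) : ∀ j, l i ≤ j → j + 3 ≤ r i →
      x i (j + 1) - x i j = x i (j + 2 + 1) - x i (j + 2) := by
  intro j hj hj'
  have hlen := (hE.len (i + 2) hi).1
  have ha : 0 < η (i + 2) - η (i + 1) := sub_pos.mpr (hR.hη (i + 1) (by omega))
  obtain ⟨k, hk, hk', hkm⟩ : ∃ k, l (i + 2) ≤ k ∧ k ≤ l (i + 2) + 1 ∧
      ((j : ℤ) + k + c i) % 2 = 0 := by
    by_cases h : ((j : ℤ) + l (i + 2) + c i) % 2 = 0
    · exact ⟨l (i + 2), le_rfl, by omega, h⟩
    · exact ⟨l (i + 2) + 1, by omega, le_rfl, by push_cast; omega⟩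
  have h1 := gap_eq hR hE hi (j := j) (k := k) hj (by omega) hk (by omega) hkm
  have h2 := gap_eq hR hE hi (j := j + 2) (k := k) (by omega) (by omega) hk (by omega)
    (by push_cast; omega)
  rw [← h1] at h2
  exact (mul_left_cancel₀ ha.ne' h2).symm

lemma per_high (hR : Rows V J η n x) (hE : Exact J η n x l r c W) (hW : 10 ≤ W) {i : ℕ}
    (hi : i + 2 ≤ J) : ∀ k, l (i + 2) ≤ k → k + 3 ≤ r (i + 2) →
      x (i + 2) (k + 1) - x (i + 2) k = x (i + 2) (k + 2 + 1) - x (i + 2) (k + 2) := by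
  intro k hk hk'
  have hlen := (hE.len i (by omega)).1
  have hb : 0 < η (i + 1) - η i := sub_pos.mpr (hR.hη i (by omega))
  obtain ⟨j, hj, hj', hjm⟩ : ∃ j, l i ≤ j ∧ j ≤ l i + 1 ∧
      ((j : ℤ) + k + c i) % 2 = 0 := by
    by_cases h : ((l i : ℤ) + k + c i) % 2 = 0
    · exact ⟨l i, le_rfl, by omega, h⟩
    · exact ⟨l i + 1, by omega, le_rfl, by push_cast; omega⟩
  have h1 := gap_eq hR hE hi (j := j) (k := k) hj (by omega) hk (by omega) hjm
  have h2 := gap_eq hR hE hi (j := j) (k := k + 2) hj (by omega) (by omega) (by omega)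
    (by push_cast; omega)
  rw [h1] at h2
  exact mul_left_cancel₀ hb.ne' h2

/-- the gaps of the interior rows are constant -/
lemma gap_const (hR : Rows V J η n x) (hE : Exact J η n x l r c W) (hW : 10 ≤ W) (hJ : 3 ≤ J)
    {i : ℕ} (hi : i + 2 ≤ J) : ∀ j, l (i + 1) ≤ j → j + 1 ≤ r (i + 1) →
      x (i + 1) (j + 1) - x (i + 1) j = x (i + 1) (l (i + 1) + 1) - x (i + 1) (l (i + 1)) := by
  have hlen0 := (hE.len i (by omega)).1
  have hlen2 := (hE.len (i + 2) hi).1
  have hD : 0 < η (i + 2) - η i := sub_pos.mpr (eta_lt hR (by omega) hi)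
  have hper : ∀ j, l (i + 1) ≤ j → j + 3 ≤ r (i + 1) →
      x (i + 1) (j + 1) - x (i + 1) j = x (i + 1) (j + 2 + 1) - x (i + 1) (j + 2) := by
    rcases Nat.lt_or_ge (i + 2) J with h | h
    · exact per_low hR hE hW (i := i + 1) (by omega)
    · obtain ⟨s, rfl⟩ : ∃ s, i = s + 1 := ⟨i - 1, by omega⟩
      exact per_high hR hE hW (i := s) (by omega)
  obtain ⟨k, hk, hk', hkm⟩ : ∃ k, l (i + 2) ≤ k ∧ k ≤ l (i + 2) + 1 ∧
      ((l i : ℤ) + k + c i) % 2 = 1 := by
    by_cases h : ((l i : ℤ) + l (i + 2) + c i) % 2 = 1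
    · exact ⟨l (i + 2), le_rfl, by omega, h⟩
    · exact ⟨l (i + 2) + 1, by omega, le_rfl, by push_cast; omega⟩
  obtain ⟨m, h1, h2, _⟩ := exists_m hE hi (j := l i) (k := k) le_rfl (by omega) hk (by omega) hkm
  obtain ⟨m2, h3, _, h4⟩ := exists_m hE hi (j := l i + 2) (k := k + 2) (by omega) (by omega)
    (by omega) (by omega) (by push_cast; omega)
  have hm2 : m2 = m + 2 := by push_cast at h3; omega
  subst hm2
  have p0 := rel_mul hR hE hi (j := l i) (k := k) (m := m) le_rfl (by omega) hk (by omega) h1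
  have p1 := rel_mul hR hE hi (j := l i + 1) (k := k + 1) (m := m + 1) (by omega) (by omega)
    (by omega) (by omega) (by push_cast; linarith)
  have p2 := rel_mul hR hE hi (j := l i + 2) (k := k + 2) (m := m + 2) (by omega) (by omega)
    (by omega) (by omega) (by push_cast; linarith)
  have q1 := gap_eq hR hE hi (j := l i + 1) (k := k) (by omega) (by omega) hk (by omega)
    (by push_cast; omega)
  have q2 := gap_eq hR hE hi (j := l i) (k := k + 1) (by omega) (by omega) (by omega) (by omega)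
    (by push_cast; omega)
  have heq : x (i + 1) (m + 1) - x (i + 1) m = x (i + 1) (m + 1 + 1) - x (i + 1) (m + 1) := by
    have e1 : l i + 1 + 1 = l i + 2 := by ring
    have e2 : k + 1 + 1 = k + 2 := by ring
    have e3 : m + 1 + 1 = m + 2 := by ring
    rw [e1] at q1
    rw [e2] at q2
    rw [e3]
    have : (η (i + 2) - η i) * (x (i + 1) (m + 1) - x (i + 1) m)
        = (η (i + 2) - η i) * (x (i + 1) (m + 2) - x (i + 1) (m + 1)) := by
      linarith
    exact mul_left_cancel₀ hD.ne' this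
  exact const_of_per (γ := fun j => x (i + 1) (j + 1) - x (i + 1) j) hper h2 (by omega) heq

end gaps

end Pool.Agent.helper24.Vis
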