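import Pool.Agent.helper24.Vis.Exact

set_option autoImplicit false

/-!
# MP_6b3417_co, part II.8: exact rows give a projective lattice window (assembly)
-/

namespace Pool.Agent.helper24.Vis

open Pool.Agent.helper47.Vis

/-- the projective chart -/
noncomputable def chart (K0 K1 H0 H1 a b : ℝ) : Matrix (Fin 3) (Fin 3) ℝ :=
  !![1, -(a * (-(K1 - K0) / (K0 * H1 - H0 * K1)) + b * (K0 / (K0 * H1 - H0 * K1))),
      -(a * ((H1 - H0) / (K0 * H1 - H0 * K1)) + b * (-H0 / (K0 * H1 - H0 * K1)));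
    0, K0 / (K0 * H1 - H0 * K1), -H0 / (K0 * H1 - H0 * K1);
    0, -(K1 - K0) / (K0 * H1 - H0 * K1), (H1 - H0) / (K0 * H1 - H0 * K1)]

section chart

variable {K0 K1 H0 H1 a b : ℝ} (hN : 0 < K0 * H1 - H0 * K1)

include hN in
lemma chart_det : (chart K0 K1 H0 H1 a b).det ≠ 0 := by
  have h : (chart K0 K1 H0 H1 a b).det = 1 / (K0 * H1 - H0 * K1) := by
    have hN' := hN.ne'
    unfold chart
    rw [Matrix.det_fin_three]
    simp
    field_simp
    ring
  rw [h]
  positivity

lemma aff_one (p : ℝ × ℝ) : aff (chart K0 K1 H0 H1 a b) 1 p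
    = (K0 * p.2 - H0) / (K0 * H1 - H0 * K1) := by
  simp [aff, chart]; ring

lemma aff_two (p : ℝ × ℝ) : aff (chart K0 K1 H0 H1 a b) 2 p
    = ((H1 - H0) - (K1 - K0) * p.2) / (K0 * H1 - H0 * K1) := by
  simp [aff, chart]; ring

lemma aff_zero (p : ℝ × ℝ) : aff (chart K0 K1 H0 H1 a b) 0 p
    = p.1 - a * aff (chart K0 K1 H0 H1 a b) 2 p - b * aff (chart K0 K1 H0 H1 a b) 1 p := by
  rw [aff_one, aff_two]
  simp [aff, chart]; ring

end chart

/-- **Exact rows give a projective lattice window.** -/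
theorem exact_window (M W : ℕ) (hM : 1 ≤ M) (hW : 10 * (M + 10) ^ 2 ≤ W) (V : Set (ℝ × ℝ))
    (η : ℕ → ℝ) (n : ℕ → ℕ) (x : ℕ → ℕ → ℝ) (hR : Rows V (M + 2) η n x)
    (l r : ℕ → ℕ) (c : ℕ → ℤ) (hE : Exact (M + 2) η n x l r c W) :
    ∃ A : Matrix (Fin 3) (Fin 3) ℝ, WindowHyp V A M := by
  have hW10 : 10 ≤ W := by nlinarith [Nat.zero_le M]
  have hlen := hE.len
  -- the gaps
  obtain ⟨g, hg⟩ : ∃ g : ℕ → ℝ, ∀ t, g t = x (t + 1) (l (t + 1) + 1) - x (t + 1) (l (t + 1)) :=
    ⟨_, fun t => rfl⟩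
  have hgpos : ∀ t, t ≤ M → 0 < g t := by
    intro t ht
    rw [hg]
    obtain ⟨h1, h2⟩ := hlen (t + 1) (by omega)
    exact sub_pos.mpr (hR.hx (t + 1) (by omega) _ _ (Nat.lt_succ_self _) (by omega))
  have hgap : ∀ t, t ≤ M → ∀ j, l (t + 1) ≤ j → j + 1 ≤ r (t + 1) →
      x (t + 1) (j + 1) - x (t + 1) j = g t := by
    intro t ht j hj hj'
    rw [hg]
    exact gap_const hR hE hW10 (by omega) (i := t) (by omega) j hj hj'
  have hlin : ∀ t, t ≤ M → ∀ j, l (t + 1) ≤ j → j ≤ r (t + 1) →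
      x (t + 1) j = x (t + 1) (l (t + 1)) + ((j : ℝ) - l (t + 1)) * g t := by
    intro t ht j hj
    induction j, hj using Nat.le_induction with
    | base => intro _; simp
    | succ j hj ih =>
      intro hj'
      have h1 := ih (by omega)
      have h2 := hgap t ht j hj hj'
      push_cast
      linarith
  -- the shifts
  obtain ⟨s, hs⟩ := exists_shift (fun t => c (t + 1) - 1)
  -- the line
  obtain ⟨o, k, hok⟩ := choose_line (M := M) (W := W) hM hW
    (L := fun t => (l (t + 1) : ℤ) + s t) (R := fun t => (r (t + 1) : ℤ) + s t)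
    (by
      intro t ht
      have h1 := (hlen (t + 1) (by omega)).1
      have h3 := (hlen (t + 3) (by omega)).1
      have hst := hs t
      obtain ⟨k, hk, hk', hkm⟩ : ∃ k, l (t + 3) ≤ k ∧ k ≤ l (t + 3) + 1 ∧
          ((l (t + 1) : ℤ) + k + c (t + 1)) % 2 = 1 := by
        by_cases h : ((l (t + 1) : ℤ) + l (t + 3) + c (t + 1)) % 2 = 1
        · exact ⟨l (t + 3), le_rfl, by omega, h⟩
        · exact ⟨l (t + 3) + 1, by omega, le_rfl, by push_cast; omega⟩
      obtain ⟨m, h4, h5, _⟩ := exists_m hE (i := t + 1) (by omega) (j := l (t + 1)) (k := k) le_rfl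
        (by omega) hk (by show k ≤ r (t + 3); omega) hkm
      have h6 : l (t + 2) ≤ m := h5
      show 2 * ((l (t + 2) : ℤ) + s (t + 1)) ≤ l (t + 1) + s t + (l (t + 3) + s (t + 2)) + 1
      omega)
    (by
      intro t ht
      have h1 := (hlen (t + 1) (by omega)).1
      have h3 := (hlen (t + 3) (by omega)).1
      have hst := hs t
      obtain ⟨k, hk, hk', hkm⟩ : ∃ k, k ≤ r (t + 3) ∧ r (t + 3) ≤ k + 1 ∧
          ((r (t + 1) : ℤ) + k + c (t + 1)) % 2 = 1 := by
        by_cases h : ((r (t + 1) : ℤ) + r (t + 3) + c (t + 1)) % 2 = 1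
        · exact ⟨r (t + 3), le_rfl, by omega, h⟩
        · refine ⟨r (t + 3) - 1, by omega, by omega, ?_⟩
          rw [Nat.cast_sub (by omega)]; push_cast; omega
      obtain ⟨m, h4, _, h5⟩ := exists_m hE (i := t + 1) (by omega) (j := r (t + 1)) (k := k)
        (by omega) le_rfl (by show l (t + 3) ≤ k; omega) hk hkm
      have h6 : m ≤ r (t + 2) := h5
      show (r (t + 1) : ℤ) + s t + (r (t + 3) + s (t + 2)) - 1 ≤ 2 * ((r (t + 2) : ℤ) + s (t + 1))
      omega)
    (by
      intro t ht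
      have h1 := (hlen (t + 1) (by omega)).1
      show (l (t + 1) : ℤ) + s t + W ≤ r (t + 1) + s t
      omega)
  -- the three arithmetic progressions
  obtain ⟨K, hK⟩ : ∃ K : ℕ → ℝ, ∀ t, K t = 1 / g t := ⟨_, fun t => rfl⟩
  obtain ⟨H, hH⟩ : ∃ H : ℕ → ℝ, ∀ t, H t = η (t + 1) / g t := ⟨_, fun t => rfl⟩
  obtain ⟨X, hX⟩ : ∃ X : ℕ → ℝ, ∀ t, X t = x (t + 1) (l (t + 1)) / g t - l (t + 1) - s t :=
    ⟨_, fun t => rfl⟩
  have hXL : ∀ t, t ≤ M → ∀ j, l (t + 1) ≤ j → j ≤ r (t + 1) →
      x (t + 1) j = g t * (X t + j + s t) := by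
    intro t ht j hj hj'
    have h1 := (hgpos t ht).ne'
    rw [hlin t ht j hj hj', hX]
    field_simp
    ring
  have hrel : ∀ t, t + 2 ≤ M →
      (η (t + 3) - η (t + 2)) * g t = (η (t + 2) - η (t + 1)) * g (t + 2) ∧
      (η (t + 3) - η (t + 1)) * g (t + 1) = 2 * ((η (t + 3) - η (t + 2)) * g t) ∧
      X t + X (t + 2) = 2 * X (t + 1) := by
    intro t ht
    have h1 := (hlen (t + 1) (by omega)).1
    have h3 := (hlen (t + 3) (by omega)).1
    have hst := hs t
    have hgt := hgpos t (by omega)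
    have ha : 0 < η (t + 3) - η (t + 2) := sub_pos.mpr (hR.hη (t + 2) (by omega))
    obtain ⟨k, hk, hk', hkm⟩ : ∃ k, l (t + 3) ≤ k ∧ k ≤ l (t + 3) + 1 ∧
        ((l (t + 1) : ℤ) + k + c (t + 1)) % 2 = 1 := by
      by_cases h : ((l (t + 1) : ℤ) + l (t + 3) + c (t + 1)) % 2 = 1
      · exact ⟨l (t + 3), le_rfl, by omega, h⟩
      · exact ⟨l (t + 3) + 1, by omega, le_rfl, by push_cast; omega⟩
    obtain ⟨m, h4, h5, _⟩ := exists_m hE (i := t + 1) (by omega) (j := l (t + 1)) (k := k) le_rfl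
      (by omega) hk (by show k ≤ r (t + 3); omega) hkm
    obtain ⟨m', h4', _, h5'⟩ := exists_m hE (i := t + 1) (by omega) (j := l (t + 1) + 1) (k := k + 1)
      (by omega) (by omega) (by show l (t + 3) ≤ k + 1; omega) (by show k + 1 ≤ r (t + 3); omega)
      (by push_cast; omega)
    have hm' : m' = m + 1 := by push_cast at h4'; omega
    subst hm'
    have p0 := rel_mul hR hE (i := t + 1) (by omega) (j := l (t + 1)) (k := k) (m := m) le_rfl
      (by omega) hk (by show k ≤ r (t + 3); omega) h4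
    have p1 := rel_mul hR hE (i := t + 1) (by omega) (j := l (t + 1) + 1) (k := k + 1) (m := m + 1)
      (by omega) (by omega) (by show l (t + 3) ≤ k + 1; omega) (by show k + 1 ≤ r (t + 3); omega) h4'
    have q := gap_eq hR hE (i := t + 1) (by omega) (j := l (t + 1)) (k := k + 1) le_rfl (by omega)
      (by show l (t + 3) ≤ k + 1; omega) (by show k + 1 + 1 ≤ r (t + 3); omega) (by push_cast; omega)
    have g0 := hgap t (by omega) (l (t + 1)) le_rfl (by omega)
    have g1 : x (t + 2) (m + 1) - x (t + 2) m = g (t + 1) :=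
      hgap (t + 1) (by omega) m h5 h5'
    have g2 : x (t + 3) (k + 1) - x (t + 3) k = g (t + 2) :=
      hgap (t + 2) (by omega) k hk (by show k + 1 ≤ r (t + 3); omega)
    have g3 : x (t + 3) (k + 1 + 1) - x (t + 3) (k + 1) = g (t + 2) :=
      hgap (t + 2) (by omega) (k + 1) (by show l (t + 3) ≤ k + 1; omega)
        (by show k + 1 + 1 ≤ r (t + 3); omega)
    change (η (t + 3) - η (t + 2)) * (x (t + 1) (l (t + 1) + 1) - x (t + 1) (l (t + 1))) =
      (η (t + 2) - η (t + 1)) * (x (t + 3) (k + 1 + 1) - x (t + 3) (k + 1)) at q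
    rw [g0, g3] at q
    change (η (t + 3) - η (t + 1)) * x (t + 2) m =
      (η (t + 3) - η (t + 2)) * x (t + 1) (l (t + 1)) + (η (t + 2) - η (t + 1)) * x (t + 3) k at p0
    change (η (t + 3) - η (t + 1)) * x (t + 2) (m + 1) =
      (η (t + 3) - η (t + 2)) * x (t + 1) (l (t + 1) + 1)
        + (η (t + 2) - η (t + 1)) * x (t + 3) (k + 1) at p1
    have q2 : (η (t + 3) - η (t + 1)) * g (t + 1) = 2 * ((η (t + 3) - η (t + 2)) * g t) := by
      have e1 : (η (t + 3) - η (t + 1)) * g (t + 1) = (η (t + 3) - η (t + 2)) * g t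
          + (η (t + 2) - η (t + 1)) * g (t + 2) := by
        rw [← g0, ← g1, ← g2]; linarith
      rw [e1, ← q]; ring
    refine ⟨q, q2, ?_⟩
    have y0 := hXL t (by omega) (l (t + 1)) le_rfl (by omega)
    have y1 : x (t + 2) m = g (t + 1) * (X (t + 1) + m + s (t + 1)) :=
      hXL (t + 1) (by omega) m h5 (by show m ≤ r (t + 2); omega)
    have y2 : x (t + 3) k = g (t + 2) * (X (t + 2) + k + s (t + 2)) :=
      hXL (t + 2) (by omega) k hk (by show k ≤ r (t + 3); omega)
    rw [y0, y1, y2, ← mul_assoc, ← mul_assoc, ← mul_assoc, q2, ← q] at p0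
    have hag : 0 < (η (t + 3) - η (t + 2)) * g t := mul_pos ha hgt
    have e2 : (η (t + 3) - η (t + 2)) * g t * (2 * (X (t + 1) + m + s (t + 1)))
        = (η (t + 3) - η (t + 2)) * g t * ((X t + l (t + 1) + s t) + (X (t + 2) + k + s (t + 2))) := by
      linarith
    have e3 := mul_left_cancel₀ hag.ne' e2
    have e4 : ((l (t + 1) : ℝ) + k + c (t + 1)) = 2 * m + 1 := by exact_mod_cast h4
    have e5 : (s t : ℝ) + s (t + 2) = c (t + 1) - 1 + 2 * s (t + 1) := by exact_mod_cast hst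
    linarith
  have hKap := ap (F := K) (M := M) (by
    intro t ht
    obtain ⟨h1, h2, _⟩ := hrel t ht
    have g0 := hgpos t (by omega)
    have g1 := hgpos (t + 1) (by omega)
    have g2 := hgpos (t + 2) (by omega)
    have ha : 0 < η (t + 3) - η (t + 2) := sub_pos.mpr (hR.hη (t + 2) (by omega))
    have hb : 0 < η (t + 2) - η (t + 1) := sub_pos.mpr (hR.hη (t + 1) (by omega))
    rw [hK, hK, hK]
    obtain ⟨a, ha'⟩ : ∃ a, a = η (t + 3) - η (t + 2) := ⟨_, rfl⟩
    obtain ⟨b, hb'⟩ : ∃ b, b = η (t + 2) - η (t + 1) := ⟨_, rfl⟩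
    have hD : η (t + 3) - η (t + 1) = a + b := by rw [ha', hb']; ring
    rw [hD, ← ha'] at h2
    rw [← ha', ← hb'] at h1
    rw [← ha'] at ha
    rw [← hb'] at hb
    have e1 : 1 / g (t + 2) = b / (a * g t) := by
      rw [h1]; field_simp
    have e2 : 2 * (1 / g (t + 1)) = (a + b) / (a * g t) := by
      have : a * g t = (a + b) * g (t + 1) / 2 := by linarith
      rw [this]; field_simp
    rw [e1, e2]; field_simp)
  have hHap := ap (F := H) (M := M) (by
    intro t ht
    obtain ⟨h1, h2, _⟩ := hrel t ht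
    have g0 := hgpos t (by omega)
    have g1 := hgpos (t + 1) (by omega)
    have g2 := hgpos (t + 2) (by omega)
    have ha : 0 < η (t + 3) - η (t + 2) := sub_pos.mpr (hR.hη (t + 2) (by omega))
    have hb : 0 < η (t + 2) - η (t + 1) := sub_pos.mpr (hR.hη (t + 1) (by omega))
    rw [hH, hH, hH]
    obtain ⟨a, ha'⟩ : ∃ a, a = η (t + 3) - η (t + 2) := ⟨_, rfl⟩
    obtain ⟨b, hb'⟩ : ∃ b, b = η (t + 2) - η (t + 1) := ⟨_, rfl⟩
    have hη1 : η (t + 1) = η (t + 2) - b := by rw [hb']; ring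
    have hη3 : η (t + 3) = η (t + 2) + a := by rw [ha']; ring
    have hD : η (t + 3) - η (t + 1) = a + b := by rw [ha', hb']; ring
    rw [hD, ← ha'] at h2
    rw [← ha', ← hb'] at h1
    rw [← ha'] at ha
    rw [← hb'] at hb
    have e1 : ∀ y : ℝ, y / g (t + 2) = y * b / (a * g t) := by
      intro y; rw [h1]; field_simp
    have e2 : ∀ y : ℝ, 2 * (y / g (t + 1)) = y * (a + b) / (a * g t) := by
      intro y
      have : a * g t = (a + b) * g (t + 1) / 2 := by linarith
      rw [this]; field_simp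
    have e3 : ∀ y : ℝ, y / g t = y * a / (a * g t) := by
      intro y; field_simp
    show η (t + 1) / g t + η (t + 3) / g (t + 2) = 2 * (η (t + 2) / g (t + 1))
    rw [e1, e2, e3, hη1, hη3, ← add_div]
    congr 1
    ring)
  have hXap := ap (F := X) (M := M) (fun t ht => (hrel t ht).2.2)
  -- positivity of the determinant
  have hN : 0 < K 0 * H 1 - H 0 * K 1 := by
    have g0 := hgpos 0 (by omega)
    have g1 := hgpos 1 (by omega)
    have h12 : 0 < η 2 - η 1 := sub_pos.mpr (hR.hη 1 (by omega))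
    have e : K 0 * H 1 - H 0 * K 1 = (η 2 - η 1) / (g 0 * g 1) := by
      rw [hK, hK, hH, hH]
      show 1 / g 0 * (η 2 / g 1) - η 1 / g 0 * (1 / g 1) = _
      field_simp
    rw [e]; positivity
  obtain ⟨A, hA⟩ : ∃ A, A = chart (K 0) (K 1) (H 0) (H 1) (X 0 + o) (X 1 - X 0 + k) := ⟨_, rfl⟩
  have hA2 : ∀ t, t ≤ M → ∀ y, aff A 2 (y, η (t + 1)) = g t := by
    intro t ht y
    have g0 := hgpos t ht
    rw [hA, aff_two]
    have e1 : η (t + 1) = g t * H t := by rw [hH]; field_simp
    have e2 : g t * K t = 1 := by rw [hK]; field_simp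
    rw [div_eq_iff hN.ne']
    show (H 1 - H 0) - (K 1 - K 0) * η (t + 1) = _
    have h3 := hKap t ht
    have h4 := hHap t ht
    have e3 : (H 1 - H 0) = (H 1 - H 0) * (g t * K t) := by rw [e2, mul_one]
    rw [e3, e1, h3, h4]
    ring
  have hA1 : ∀ t, t ≤ M → ∀ y, aff A 1 (y, η (t + 1)) = g t * t := by
    intro t ht y
    have g0 := hgpos t ht
    rw [hA, aff_one]
    have e1 : η (t + 1) = g t * H t := by rw [hH]; field_simp
    have e2 : g t * K t = 1 := by rw [hK]; field_simp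
    rw [div_eq_iff hN.ne']
    show K 0 * η (t + 1) - H 0 = _
    have h3 := hKap t ht
    have h4 := hHap t ht
    have e3 : H 0 = H 0 * (g t * K t) := by rw [e2, mul_one]
    have e4 : K 0 * η (t + 1) - H 0 = K 0 * (g t * H t) - H 0 * (g t * K t) := by
      rw [← e3, e1]
    rw [e4, h3, h4]
    ring
  have hA0 : ∀ t, t ≤ M → ∀ y, aff A 0 (y, η (t + 1)) = y - g t * (X t + o + k * t) := by
    intro t ht y
    have h1 := hA1 t ht y
    have h2 := hA2 t ht y
    have h3 := hXap t ht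
    rw [hA] at h1 h2 ⊢
    rw [aff_zero, h1, h2, h3]
    ring
  refine ⟨A, ?_, ?_, ?_⟩
  · rw [hA]; exact chart_det hN
  · rintro _ ⟨⟨a, t'⟩, ⟨ha, ha', ht, ht'⟩, rfl⟩
    simp only at ha ha' ht ht'
    obtain ⟨t, rfl⟩ := Int.eq_ofNat_of_zero_le ht
    have htM : t ≤ M := by exact_mod_cast ht'
    obtain ⟨h1, h2⟩ := hok t htM
    have h0 : (0 : ℤ) ≤ l (t + 1) := by positivity
    obtain ⟨j, hj⟩ := Int.eq_ofNat_of_zero_le (a := a + o + k * t - s t) (by linarith)
    have hj1 : l (t + 1) ≤ j := by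
      have : (l (t + 1) : ℤ) ≤ j := by linarith
      exact_mod_cast this
    have hj2 : j ≤ r (t + 1) := by
      have : (j : ℤ) ≤ r (t + 1) := by linarith
      exact_mod_cast this
    have hjR : (j : ℝ) = a + o + k * t - s t := by exact_mod_cast hj.symm
    have hg0 := hgpos t htM
    refine ⟨(x (t + 1) j, η (t + 1)), ⟨hR.mem (t + 1) (by omega) j
      (lt_of_le_of_lt hj2 (hlen (t + 1) (by omega)).2), ?_⟩, ?_⟩
    · show 0 < aff A 2 (x (t + 1) j, η (t + 1))
      rw [hA2 t htM]; exact hg0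
    · unfold pmap
      rw [hA2 t htM, hA1 t htM, hA0 t htM, hXL t htM j hj1 hj2, hjR]
      refine Prod.ext ?_ ?_
      · simp only [toR_fst]
        rw [div_eq_iff hg0.ne']
        ring
      · simp only [toR_snd]
        rw [div_eq_iff hg0.ne']
        push_cast
        ring
  · rintro ⟨y, h⟩ hp hpos h1 h2 h3 h4
    have hpm1 : (pmap A (y, h)).1 = aff A 0 (y, h) / aff A 2 (y, h) := rfl
    have hpm2 : (pmap A (y, h)).2 = aff A 1 (y, h) / aff A 2 (y, h) := rfl
    rw [hpm2] at h3 h4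
    have h5 : 0 ≤ aff A 1 (y, h) := by
      have := mul_nonneg h3 hpos.le
      rwa [div_mul_cancel₀ _ hpos.ne'] at this
    have h6 : aff A 1 (y, h) ≤ M * aff A 2 (y, h) := (div_le_iff₀ hpos).mp h4
    have hK0 : 0 < K 0 := by rw [hK]; have := hgpos 0 (by omega); positivity
    have hKM : 0 < K M := by rw [hK]; have := hgpos M le_rfl; positivity
    have hh1 : η 1 ≤ h := by
      rw [hA, aff_one] at h5
      have h7 : 0 ≤ K 0 * h - H 0 := by
        have := mul_nonneg h5 hN.le
        rwa [div_mul_cancel₀ _ hN.ne'] at this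
      have h8 : H 0 = K 0 * η 1 := by rw [hH, hK]; ring
      rw [h8] at h7
      have h9 : K 0 * η 1 ≤ K 0 * h := by linarith
      exact le_of_mul_le_mul_left h9 hK0
    have hh2 : h ≤ η (M + 1) := by
      rw [hA, aff_one, aff_two, ← mul_div_assoc, div_le_div_iff_of_pos_right hN] at h6
      simp only at h6
      have h7 := hKap M le_rfl
      have h8 := hHap M le_rfl
      have h9 : H M = K M * η (M + 1) := by rw [hH, hK]; ring
      have h10 : K M * h ≤ K M * η (M + 1) := by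
        rw [← h9, h7, h8]
        linarith
      exact le_of_mul_le_mul_left h10 hKM
    obtain ⟨i, hi, j, hj, hij⟩ := hR.only (y, h) hp
      ((eta_lt hR (by omega : 0 < 1) (by omega)).le.trans hh1)
      (hh2.trans (hR.hη (M + 1) (by omega)).le)
    simp only [Prod.mk.injEq] at hij
    obtain ⟨rfl, rfl⟩ := hij
    have hi1 : 1 ≤ i := by
      by_contra hlt
      have : i = 0 := by omega
      subst this
      exact absurd (hR.hη 0 (by omega)) (not_lt.mpr hh1)
    have hi2 : i ≤ M + 1 := by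
      by_contra hlt
      have : i = M + 2 := by omega
      subst this
      exact absurd (hR.hη (M + 1) (by omega)) (not_lt.mpr hh2)
    obtain ⟨t, rfl⟩ : ∃ t, i = t + 1 := ⟨i - 1, by omega⟩
    have htM : t ≤ M := by omega
    have hg0 := hgpos t htM
    obtain ⟨hok1, hok2⟩ := hok t htM
    have hl0 : (0 : ℤ) ≤ l (t + 1) := by positivity
    obtain ⟨j0, hj0⟩ := Int.eq_ofNat_of_zero_le (a := o + k * t - s t) (by linarith)
    have hj01 : l (t + 1) ≤ j0 := by
      have : (l (t + 1) : ℤ) ≤ j0 := by linarith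
      exact_mod_cast this
    have hj02 : j0 + M ≤ r (t + 1) := by
      have : ((j0 + M : ℕ) : ℤ) ≤ r (t + 1) := by push_cast; linarith
      exact_mod_cast this
    have hj0R : (j0 : ℝ) = o + k * t - s t := by exact_mod_cast hj0.symm
    rw [hpm1, hA0 t htM, hA2 t htM] at h1 h2
    have hrn := (hlen (t + 1) (by omega)).2
    have hx0 := hXL t htM j0 hj01 (by omega)
    have hx1 := hXL t htM (j0 + M) (by omega) hj02
    have hle1 : x (t + 1) j0 ≤ x (t + 1) j := by
      have h7 := mul_nonneg h1 hg0.le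
      rw [div_mul_cancel₀ _ hg0.ne'] at h7
      rw [hx0, hj0R]
      linarith
    have hle2 : x (t + 1) j ≤ x (t + 1) (j0 + M) := by
      have h7 := (div_le_iff₀ hg0).mp h2
      rw [hx1]
      push_cast
      rw [hj0R]
      linarith
    have hjj0 : j0 ≤ j := by
      by_contra hlt
      have := hR.hx (t + 1) (by omega) j j0 (by omega) (by omega)
      linarith
    have hjj1 : j ≤ j0 + M := by
      by_contra hlt
      have := hR.hx (t + 1) (by omega) (j0 + M) j (by omega) hj
      linarith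
    refine ⟨((j : ℤ) - j0, (t : ℤ)), ⟨?_, ?_, ?_, ?_⟩, ?_⟩
    · simp only; have : (j0 : ℤ) ≤ j := by exact_mod_cast hjj0
      linarith
    · simp only; have : (j : ℤ) ≤ j0 + M := by exact_mod_cast hjj1
      linarith
    · simp only; positivity
    · simp only; exact_mod_cast htM
    · refine Prod.ext ?_ ?_
      · rw [hpm1, hA0 t htM, hA2 t htM, hXL t htM j (by omega) (by omega)]
        simp only [toR_fst]
        push_cast
        rw [eq_div_iff hg0.ne', hj0R]
        ring
      · rw [hpm2, hA1 t htM, hA2 t htM]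
        simp only [toR_snd]
        push_cast
        rw [eq_div_iff hg0.ne']
        ring

end Pool.Agent.helper24.Vis
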